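import Pool.Agent.Helper16.BZ.Stmts

/-! bz_mods PES: large exponential sums over the primes of a block. -/

open Finset Filter MeasureTheory Topology

namespace Pool.Agent.Helper16.BZ

open Pool.Agent.Helper16.MD (PB Rich)

theorem pes_geom (z : ℂ) (hz : ‖z‖ = 1) (p H : ℕ) :
    ‖∑ h ∈ range H, z ^ (p * h)‖ ≤ H := by
  calc ‖∑ h ∈ range H, z ^ (p * h)‖ ≤ ∑ h ∈ range H, ‖z ^ (p * h)‖ := norm_sum_le _ _
    _ = H := by simp [norm_pow, hz]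

theorem pes_geom2 (z : ℂ) (hz : ‖z‖ = 1) (p H : ℕ) :
    ‖∑ h ∈ range H, z ^ (p * h)‖ * ‖z ^ p - 1‖ ≤ 2 := by
  have h1 : (∑ h ∈ range H, z ^ (p * h)) * (z ^ p - 1) = (z ^ p) ^ H - 1 := by
    simp_rw [pow_mul]
    exact geom_sum_mul _ _
  rw [← norm_mul, h1]
  calc ‖(z ^ p) ^ H - 1‖ ≤ ‖(z ^ p) ^ H‖ + ‖(1 : ℂ)‖ := norm_sub_le _ _
    _ = 1 + 1 := by simp [norm_pow, hz]
    _ = 2 := by norm_num

theorem pes_pairs (P : Finset ℕ) :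
    (P.card : ℝ) ^ 2 - P.card ≤ 2 * (((P ×ˢ P).filter (fun w => w.1 < w.2)).card : ℝ) := by
  have h1 : ((P ×ˢ P).filter (fun w => ¬ w.1 < w.2)).card ≤
      ((P ×ˢ P).filter (fun w => w.1 < w.2)).card + P.card := by
    have hs : (P ×ˢ P).filter (fun w => ¬ w.1 < w.2) ⊆
        ((P ×ˢ P).filter (fun w => w.1 < w.2)).image Prod.swap ∪ P.image (fun p => (p, p)) := by
      intro w hw
      rw [mem_filter, mem_product] at hw
      obtain ⟨⟨h1, h2⟩, h3⟩ := hw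
      rw [mem_union, mem_image, mem_image]
      rcases lt_or_eq_of_le (not_lt.mp h3) with h | h
      · left
        exact ⟨(w.2, w.1), by rw [mem_filter, mem_product]; exact ⟨⟨h2, h1⟩, h⟩, rfl⟩
      · right
        exact ⟨w.1, h1, by rw [Prod.ext_iff]; exact ⟨rfl, h.symm⟩⟩
    calc _ ≤ _ := card_le_card hs
      _ ≤ _ := card_union_le _ _
      _ ≤ _ := Nat.add_le_add card_image_le card_image_le
  have h2 := card_filter_add_card_filter_not (s := P ×ˢ P) (fun w => w.1 < w.2)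
  rw [card_product] at h2
  have h3 : P.card * P.card ≤ 2 * ((P ×ˢ P).filter (fun w => w.1 < w.2)).card + P.card := by
    omega
  have h4 : (P.card : ℝ) * P.card ≤
      2 * (((P ×ˢ P).filter (fun w => w.1 < w.2)).card : ℝ) + P.card := by
    exact_mod_cast h3
  nlinarith [h4]

theorem pes_count (i : ℕ) (P : Finset ℕ) (hP : P ⊆ PB 1 i) (M : Finset ℕ)
    (hM : ∀ p ∈ P, ∀ p' ∈ P, p < p' → p' - p ∈ M) :
    (((P ×ˢ P).filter (fun w => w.1 < w.2)).card : ℝ) ≤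
      ∑ m ∈ M, (((PB 1 i).filter fun p => p + m ∈ PB 1 i).card : ℝ) := by
  have hmaps : ∀ w ∈ (P ×ˢ P).filter (fun w => w.1 < w.2), w.2 - w.1 ∈ M := by
    intro w hw
    rw [mem_filter, mem_product] at hw
    exact hM _ hw.1.1 _ hw.1.2 hw.2
  rw [card_eq_sum_card_fiberwise hmaps]
  push_cast
  refine sum_le_sum fun m _ => ?_
  norm_cast
  refine card_le_card_of_injOn (fun w => w.1) ?_ ?_
  · intro w hw
    rw [mem_coe, mem_filter, mem_filter, mem_product] at hw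
    obtain ⟨⟨⟨h1, h2⟩, h3⟩, h4⟩ := hw
    rw [mem_coe, mem_filter]
    refine ⟨hP h1, ?_⟩
    have : w.1 + m = w.2 := by omega
    rw [this]
    exact hP h2
  · intro w hw w' hw' he
    rw [mem_coe, mem_filter, mem_filter, mem_product] at hw hw'
    have he' : w.1 = w'.1 := he
    rw [Prod.ext_iff]
    refine ⟨he', ?_⟩
    have h1 := hw.2
    have h2 := hw'.2
    have h3 := hw.1.2
    have h4 := hw'.1.2
    omega

/-- many primes `p` with `z ^ p` close to `1` -/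
theorem pes_many (i H : ℕ) (z : ℂ) (hz : ‖z‖ = 1) (κ a : ℝ) (hκ : 0 < κ) (hκ1 : κ ≤ 1)
    (hH : 1 ≤ H) (ha : a = 4 / (κ * H))
    (h : κ * (PB 1 i).card * (H : ℝ) ^ 2 ≤
      ∑ p ∈ PB 1 i, ‖∑ h ∈ range H, z ^ (p * h)‖ ^ 2) :
    κ / 2 * (PB 1 i).card ≤ (((PB 1 i).filter fun p => ‖z ^ p - 1‖ ≤ a).card : ℝ) := by
  have hH0 : (0 : ℝ) < H := by exact_mod_cast hH
  have ha0 : 0 < a := by rw [ha]; positivity
  have hb : ∀ p ∈ (PB 1 i).filter (fun p => ¬ ‖z ^ p - 1‖ ≤ a),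
      ‖∑ h ∈ range H, z ^ (p * h)‖ ^ 2 ≤ κ / 4 * (H : ℝ) ^ 2 := by
    intro p hp
    rw [mem_filter] at hp
    have h1 : a < ‖z ^ p - 1‖ := not_le.mp hp.2
    have h2 := pes_geom2 z hz p H
    have h3 : ‖∑ h ∈ range H, z ^ (p * h)‖ * a ≤ 2 :=
      le_trans (mul_le_mul_of_nonneg_left h1.le (norm_nonneg _)) h2
    have h4 : ‖∑ h ∈ range H, z ^ (p * h)‖ ≤ κ / 2 * H := by
      have h5 : ‖∑ h ∈ range H, z ^ (p * h)‖ ≤ 2 / a := by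
        rw [le_div_iff₀ ha0]; exact h3
      have h6 : 2 / a = κ / 2 * H := by
        rw [ha]; field_simp; norm_num
      rw [← h6]; exact h5
    calc ‖∑ h ∈ range H, z ^ (p * h)‖ ^ 2 ≤ (κ / 2 * H) ^ 2 :=
          pow_le_pow_left₀ (norm_nonneg _) h4 2
      _ = κ / 4 * (H : ℝ) ^ 2 * κ := by ring
      _ ≤ κ / 4 * (H : ℝ) ^ 2 * 1 := mul_le_mul_of_nonneg_left hκ1 (by positivity)
      _ = κ / 4 * (H : ℝ) ^ 2 := by ring
  have hg : ∀ p ∈ (PB 1 i).filter (fun p => ‖z ^ p - 1‖ ≤ a),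
      ‖∑ h ∈ range H, z ^ (p * h)‖ ^ 2 ≤ (H : ℝ) ^ 2 := by
    intro p _
    exact pow_le_pow_left₀ (norm_nonneg _) (pes_geom z hz p H) 2
  have hs := sum_filter_add_sum_filter_not (PB 1 i) (fun p => ‖z ^ p - 1‖ ≤ a)
    (fun p => ‖∑ h ∈ range H, z ^ (p * h)‖ ^ 2)
  have h1 := sum_le_card_nsmul _ _ _ hg
  have h2 := sum_le_card_nsmul _ _ _ hb
  rw [nsmul_eq_mul] at h1 h2
  have hc : (((PB 1 i).filter (fun p => ¬ ‖z ^ p - 1‖ ≤ a)).card : ℝ) ≤ (PB 1 i).card := by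
    exact_mod_cast card_le_card (filter_subset _ _)
  have h3 : (((PB 1 i).filter (fun p => ¬ ‖z ^ p - 1‖ ≤ a)).card : ℝ) * (κ / 4 * (H : ℝ) ^ 2) ≤
      (PB 1 i).card * (κ / 4 * (H : ℝ) ^ 2) := mul_le_mul_of_nonneg_right hc (by positivity)
  have h4 : κ * (PB 1 i).card * (H : ℝ) ^ 2 ≤
      (((PB 1 i).filter (fun p => ‖z ^ p - 1‖ ≤ a)).card : ℝ) * (H : ℝ) ^ 2 +
      (PB 1 i).card * (κ / 4 * (H : ℝ) ^ 2) := by
    calc _ ≤ _ := h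
      _ = _ := hs.symm
      _ ≤ _ := add_le_add h1 (h2.trans h3)
  have h5 : (κ / 2 * (PB 1 i).card) * (H : ℝ) ^ 2 ≤
      (((PB 1 i).filter (fun p => ‖z ^ p - 1‖ ≤ a)).card : ℝ) * (H : ℝ) ^ 2 := by
    have h6 : 0 ≤ κ / 4 * (PB 1 i).card * (H : ℝ) ^ 2 := by positivity
    nlinarith [h4, h6]
  exact le_of_mul_le_mul_right h5 (by positivity)

/-- many `m` with `z ^ m` close to `1` -/
theorem pes_dense (C₀ C₁ : ℝ) (hC₀ : 0 < C₀) (hC₁ : 0 < C₁)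
    (h0 : ∀ i m : ℕ, 1 ≤ i → 1 ≤ m →
      (((PB 1 i).filter fun p => p + m ∈ PB 1 i).card : ℝ) ≤
        C₀ * 2 ^ i / (i : ℝ) ^ 2 * ∑ d ∈ m.divisors, 1 / (d : ℝ))
    (h1 : ∀ N : ℕ, ∑ m ∈ Icc 1 N, (∑ d ∈ m.divisors, 1 / (d : ℝ)) ^ 2 ≤ C₁ * N)
    (κ a : ℝ) (hκ : 0 < κ) (i : ℕ) (hi : 1 ≤ i) (hi2 : 16 * (i : ℝ) ≤ κ * 2 ^ i)
    (hr : Rich 1 i) (z : ℂ) (hz : ‖z‖ = 1)
    (h : κ / 2 * (PB 1 i).card ≤ (((PB 1 i).filter fun p => ‖z ^ p - 1‖ ≤ a).card : ℝ)) :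
    κ ^ 4 / (65536 * C₀ ^ 2 * C₁) * 2 ^ i ≤
      (((Icc 1 (2 ^ i)).filter fun m => ‖z ^ m - 1‖ ≤ 2 * a).card : ℝ) := by
  set P := (PB 1 i).filter fun p => ‖z ^ p - 1‖ ≤ a with hPdef
  set M := (Icc 1 (2 ^ i)).filter fun m => ‖z ^ m - 1‖ ≤ 2 * a with hMdef
  have hi0 : (0 : ℝ) < i := by exact_mod_cast hi
  have hPM : ∀ p ∈ P, ∀ p' ∈ P, p < p' → p' - p ∈ M := by
    intro p hp p' hp' hlt
    rw [hPdef, mem_filter] at hp hp'
    have h1 := hp.1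
    have h2 := hp'.1
    simp only [PB, mem_filter, mem_Ioc] at h1 h2
    rw [hMdef, mem_filter, mem_Icc]
    refine ⟨⟨by omega, ?_⟩, ?_⟩
    · have h3 : 2 ^ (i + 1) = 2 * 2 ^ i := by ring
      omega
    · have h4 : z ^ p' = z ^ p * z ^ (p' - p) := by
        rw [← pow_add]; congr 1; omega
      have h5 : ‖z ^ (p' - p) - 1‖ = ‖z ^ p' - z ^ p‖ := by
        rw [h4]
        have h6 : z ^ p * z ^ (p' - p) - z ^ p = z ^ p * (z ^ (p' - p) - 1) := by ring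
        rw [h6, norm_mul, norm_pow, hz, one_pow, one_mul]
      rw [h5]
      have h7 : z ^ p' - z ^ p = (z ^ p' - 1) - (z ^ p - 1) := by ring
      rw [h7]
      calc _ ≤ ‖z ^ p' - 1‖ + ‖z ^ p - 1‖ := norm_sub_le _ _
        _ ≤ a + a := add_le_add hp'.2 hp.2
        _ = 2 * a := by ring
  have hcount := pes_count i P (filter_subset _ _) M hPM
  have hpairs := pes_pairs P
  set S := ∑ m ∈ M, ∑ d ∈ m.divisors, 1 / (d : ℝ) with hSdef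
  set T := (((P ×ˢ P).filter (fun w => w.1 < w.2)).card : ℝ) with hTdef
  have hT : T ≤ C₀ * 2 ^ i / (i : ℝ) ^ 2 * S := by
    refine hcount.trans ?_
    rw [hSdef, mul_sum]
    refine sum_le_sum fun m hm => h0 i m hi ?_
    rw [hMdef, mem_filter, mem_Icc] at hm
    exact hm.1.1
  -- many primes
  have hB : (2 : ℝ) ^ i ≤ 4 * i * (PB 1 i).card := by
    have := hr
    unfold Rich at this
    exact_mod_cast this
  have hn1 : κ * 2 ^ i / (8 * i) ≤ (P.card : ℝ) := by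
    refine le_trans ?_ h
    rw [div_le_iff₀ (by positivity)]
    nlinarith [mul_le_mul_of_nonneg_left hB hκ.le]
  have hn2 : (2 : ℝ) ≤ P.card := by
    refine le_trans ?_ hn1
    rw [le_div_iff₀ (by positivity)]
    linarith
  have hT2 : (P.card : ℝ) ^ 2 / 4 ≤ T := by nlinarith [hpairs, hn2]
  have hT3 : (κ * 2 ^ i / (8 * i)) ^ 2 / 4 ≤ C₀ * 2 ^ i / (i : ℝ) ^ 2 * S := by
    have h5 : (κ * 2 ^ i / (8 * i)) ^ 2 ≤ (P.card : ℝ) ^ 2 :=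
      pow_le_pow_left₀ (by positivity) hn1 2
    linarith [hT2, hT, h5]
  have h2i : (0 : ℝ) < 2 ^ i := by positivity
  have hS1 : κ ^ 2 * 2 ^ i / 256 ≤ C₀ * S := by
    have h6 : (κ * 2 ^ i / (8 * i)) ^ 2 / 4 =
        (κ ^ 2 * 2 ^ i / 256) * (2 ^ i / (i : ℝ) ^ 2) := by
      field_simp; ring
    have h7 : C₀ * 2 ^ i / (i : ℝ) ^ 2 * S = (C₀ * S) * (2 ^ i / (i : ℝ) ^ 2) := by ring
    rw [h6, h7] at hT3
    exact le_of_mul_le_mul_right hT3 (by positivity)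
  have hCS : S ^ 2 ≤ (M.card : ℝ) * (C₁ * 2 ^ i) := by
    have h8 : S ^ 2 ≤ (M.card : ℝ) * ∑ m ∈ M, (∑ d ∈ m.divisors, 1 / (d : ℝ)) ^ 2 := by
      rw [hSdef]
      exact sq_sum_le_card_mul_sum_sq
    refine h8.trans (mul_le_mul_of_nonneg_left ?_ (by positivity))
    calc ∑ m ∈ M, (∑ d ∈ m.divisors, 1 / (d : ℝ)) ^ 2 ≤
          ∑ m ∈ Icc (1 : ℕ) (2 ^ i), (∑ d ∈ m.divisors, 1 / (d : ℝ)) ^ 2 :=
          sum_le_sum_of_subset_of_nonneg (filter_subset _ _) fun _ _ _ => sq_nonneg _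
      _ ≤ C₁ * ((2 ^ i : ℕ) : ℝ) := h1 (2 ^ i)
      _ = C₁ * 2 ^ i := by push_cast; ring
  have h9 : (κ ^ 2 * 2 ^ i / 256) ^ 2 ≤ C₀ ^ 2 * ((M.card : ℝ) * (C₁ * 2 ^ i)) := by
    calc (κ ^ 2 * 2 ^ i / 256) ^ 2 ≤ (C₀ * S) ^ 2 := pow_le_pow_left₀ (by positivity) hS1 2
      _ = C₀ ^ 2 * S ^ 2 := by ring
      _ ≤ _ := mul_le_mul_of_nonneg_left hCS (by positivity)
  have h10 : (κ ^ 4 / (65536 * C₀ ^ 2 * C₁) * 2 ^ i) * (C₀ ^ 2 * C₁ * 2 ^ i) ≤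
      (M.card : ℝ) * (C₀ ^ 2 * C₁ * 2 ^ i) := by
    have h11 : (κ ^ 4 / (65536 * C₀ ^ 2 * C₁) * 2 ^ i) * (C₀ ^ 2 * C₁ * 2 ^ i) =
        (κ ^ 2 * 2 ^ i / 256) ^ 2 := by
      field_simp; norm_num
    rw [h11]
    calc _ ≤ _ := h9
      _ = _ := by ring
  exact le_of_mul_le_mul_right h10 (by positivity)

theorem pes_large (κ : ℝ) (hκ : 0 < κ) :
    ∃ I₀ : ℕ, 1 ≤ I₀ ∧ ∀ i : ℕ, I₀ ≤ i → 16 * (i : ℝ) ≤ κ * 2 ^ i := by
  have h1 := tendsto_pow_const_div_const_pow_of_one_lt 1 (r := (2 : ℝ)) (by norm_num)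
  have h2 : ∀ᶠ n : ℕ in atTop, (n : ℝ) ^ 1 / 2 ^ n < κ / 16 :=
    h1.eventually (gt_mem_nhds (by positivity))
  obtain ⟨I, hI⟩ := eventually_atTop.mp h2
  refine ⟨max I 1, le_max_right _ _, fun i hi => ?_⟩
  have h3 := hI i (le_trans (le_max_left _ _) hi)
  rw [pow_one, div_lt_iff₀ (by positivity)] at h3
  linarith

theorem st_PES (h0 : ST_PPB) (h1 : ST_GSQ) (h2 : ST_VIN) : ST_PES := by
  intro κ₀ hκ₀
  obtain ⟨C₀, hC₀, h0⟩ := h0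
  obtain ⟨C₁, hC₁, h1⟩ := h1
  set κ := min κ₀ 1 with hκdef
  have hκ : 0 < κ := lt_min hκ₀ one_pos
  have hκ1 : κ ≤ 1 := min_le_right _ _
  have hκκ : κ ≤ κ₀ := min_le_left _ _
  set γ := min 1 (κ ^ 4 / (65536 * C₀ ^ 2 * C₁)) with hγdef
  have hγ : 0 < γ := lt_min one_pos (by positivity)
  have hγ1 : γ ≤ 1 := min_le_left _ _
  obtain ⟨I₀, hI₀, hI⟩ := pes_large κ hκ
  set H := ⌈800 / (κ * γ)⌉₊ with hHdef
  have hH : 800 / (κ * γ) ≤ (H : ℝ) := Nat.le_ceil _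
  have hH1 : 1 ≤ H := by
    rw [hHdef, Nat.one_le_ceil_iff]
    positivity
  refine ⟨H, ⌈2 / γ⌉₊ + 1, I₀, 100 / γ ^ 2, hH1, by omega, by positivity, ?_⟩
  intro i z hi hr hz h
  have hH0 : (0 : ℝ) < H := by exact_mod_cast hH1
  have h3 : κ * (PB 1 i).card * (H : ℝ) ^ 2 ≤
      ∑ p ∈ PB 1 i, ‖∑ h ∈ range H, z ^ (p * h)‖ ^ 2 := by
    refine le_trans ?_ h
    gcongr
  have h4 := pes_many i H z hz κ (4 / (κ * H)) hκ hκ1 hH1 rfl h3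
  have h5 := pes_dense C₀ C₁ hC₀ hC₁ h0 h1 κ (4 / (κ * H)) hκ i (hI₀.trans hi) (hI i hi) hr z
    hz h4
  have h6 : γ * ((2 ^ i : ℕ) : ℝ) ≤
      (((Icc 1 (2 ^ i)).filter fun m => ‖z ^ m - 1‖ ≤ 2 * (4 / (κ * H))).card : ℝ) := by
    refine le_trans ?_ h5
    push_cast
    exact mul_le_mul_of_nonneg_right (min_le_right _ _) (by positivity)
  have h7 : 2 * (4 / (κ * H)) ≤ γ / 100 := by
    rw [div_le_iff₀ (by positivity)] at hH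
    have h8 : 2 * (4 / (κ * H)) = 8 / (κ * H) := by ring
    rw [h8, div_le_iff₀ (by positivity)]
    nlinarith [hH]
  obtain ⟨q, hq1, hq2, hq3⟩ := h2 γ (2 * (4 / (κ * H))) (2 ^ i) z hγ hγ1 Nat.one_le_two_pow hz
    (by positivity) h7 ⟨_, filter_subset _ _, fun m hm => (mem_filter.mp hm).2, h6⟩
  refine ⟨q, hq1, ?_, ?_⟩
  · have h9 : (q : ℝ) ≤ ((⌈2 / γ⌉₊ + 1 : ℕ) : ℝ) := by
      push_cast
      exact hq2.trans (add_le_add (Nat.le_ceil _) le_rfl)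
    exact_mod_cast h9
  · refine hq3.trans (le_of_eq ?_)
    push_cast
    rw [div_div]

end Pool.Agent.Helper16.BZ
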